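import Pool.Agent.L7h3.GL.Stm

/-! Part CUT of project GL (helper3). -/

namespace Pool.Agent.L7h76.GL
open Pool.Agent.L7h3.GL

variable {L : Type} [CompleteLattice L]

/-- the elements of a saturated chain lie above the first one and below the top -/
theorem pc_mem {t a : L} {l : List L} (h : Pc t a l) : ∀ z ∈ l, a ≤ z ∧ z < t := by
  obtain ⟨h1, h2, h3⟩ := h
  have h4 : l.IsChain (· < ·) := h2.imp (fun _ _ hab => hab.lt)
  have h5 : l.Pairwise (· < ·) := List.isChain_iff_pairwise.1 h4
  intro z hz
  refine ⟨?_, ?_⟩
  · cases l with
    | nil => simp at hz
    | cons c l' =>
      simp only [List.head?_cons, Option.some.injEq] at h1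
      subst h1
      rcases List.mem_cons.1 hz with rfl | hz'
      · exact le_rfl
      · exact ((List.pairwise_cons.1 h5).1 z hz').le
  · have hne : l ≠ [] := List.ne_nil_of_mem hz
    have hlast := h3 (l.getLast hne) (List.getLast?_eq_some_getLast hne)
    have hle : z ≤ l.getLast hne := by
      have hsplit : l.dropLast ++ [l.getLast hne] = l := List.dropLast_append_getLast hne
      rw [← hsplit] at hz h5
      rcases List.mem_append.1 hz with hz' | hz'
      · have h6 := (List.pairwise_append.1 h5).2.2 z hz' (l.getLast hne) (by simp)
        exact h6.le
      · simp only [List.mem_singleton] at hz'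
        exact le_of_eq hz'
    exact lt_of_le_of_lt hle hlast.lt

theorem gen_atom {b a : L} {T : Set L} (hT : Cv b T) (ha : a ∈ T) : Gen b T a := by
  refine le_antisymm ?_ ?_
  · exact le_trans (le_sSup (show a ∈ {a' | a' ∈ T ∧ a' ≤ a} from ⟨ha, le_rfl⟩)) le_sup_right
  · exact sup_le (hT a ha).le (sSup_le (fun c hc => hc.2))

theorem not_le_of_ne {b a a' : L} (h : b ⋖ a) (h' : b ⋖ a') (hne : a ≠ a') : ¬ a ≤ a' := by
  intro hle
  rcases eq_or_lt_of_le hle with h1 | h1
  · exact hne h1
  · exact h'.2 h.1 h1

theorem s_CUT (hGCON : S_GCON) (hLIFT : S_LIFT) (hCNT : S_CNT) (hDEL : S_DEL) : S_CUT := by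
  classical
  intro L _ ρ hρ
  have main : ∀ n : ℕ, ∀ (b : L) (T S : Finset L), T.card = n → Cv b (T : Set L) → 2 ≤ T.card →
      (∀ a ∈ T, ∀ l, Pc (tp b T) a l → (∀ z ∈ l, Gen b (T : Set L) z) → ∃ z ∈ l, z ∈ S) →
      T.card ≤ S.card := by
    intro n
    induction n using Nat.strong_induction_on with
    | _ n ih =>
      intro b T S hn hT h2 hcut
      by_cases h3 : T.card = 2
      · -- both atoms are covered by the top
        have hsub : T ⊆ S := by
          intro a ha
          have hcard : (T.erase a).card = 1 := by
            rw [Finset.card_erase_of_mem ha]; omega
          obtain ⟨q, hq⟩ := Finset.card_eq_one.1 hcard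
          have hqm : q ∈ T.erase a := by rw [hq]; simp
          have hqT := Finset.mem_of_mem_erase hqm
          have hqa := Finset.ne_of_mem_erase hqm
          have hTeq : ∀ c ∈ T, c = a ∨ c = q := by
            intro c hc
            by_cases hca : c = a
            · exact Or.inl hca
            · right
              have : c ∈ T.erase a := Finset.mem_erase.2 ⟨hca, hc⟩
              rw [hq] at this
              simpa using this
          have htp : tp b (T : Set L) = a ⊔ q := by
            refine le_antisymm ?_ ?_
            · refine sup_le ((hT a ha).le.trans le_sup_left) (sSup_le ?_)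
              intro c hc
              rcases hTeq c hc with h | h
              · rw [h]; exact le_sup_left
              · rw [h]; exact le_sup_right
            · exact sup_le ((le_sSup (show a ∈ (T : Set L) from ha)).trans le_sup_right)
                ((le_sSup (show q ∈ (T : Set L) from hqT)).trans le_sup_right)
          have hcov : a ⋖ a ⊔ q := hρ.sm b q a (hT q hqT) (hT a ha).le
            (not_le_of_ne (hT q hqT) (hT a ha) hqa)
          obtain ⟨z, hz, hzS⟩ := hcut a ha [a] ⟨rfl, by simp, by
            intro z hz
            simp only [List.getLast?_singleton, Option.some.injEq] at hz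
            subst hz
            rw [htp]; exact hcov⟩ (by
            intro z hz
            simp only [List.mem_singleton] at hz
            subst hz
            exact gen_atom hT ha)
          simp only [List.mem_singleton] at hz
          rw [← hz]; exact hzS
        exact Finset.card_le_card hsub
      · have h3' : 2 < T.card := by omega
        by_cases hq : ∃ q ∈ T, q ∈ S
        · obtain ⟨q, hqT, hqS⟩ := hq
          obtain ⟨S', hS', hcut'⟩ := hDEL L ρ hρ b q T S hT hqT hqS h3' hcut
          have hc : (T.erase q).card = T.card - 1 := Finset.card_erase_of_mem hqT
          have := ih (T.erase q).card (by omega) b (T.erase q) S' rfl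
            (fun a ha => hT a (Finset.mem_of_mem_erase ha)) (by omega) hcut'
          omega
        · push Not at hq
          set S₁ : Finset L := S.filter (fun z => b ≤ z ∧ z < tp b (T : Set L)) with hS₁
          have hcut₁ : ∀ a ∈ T, ∀ l, Pc (tp b T) a l → (∀ z ∈ l, Gen b (T : Set L) z) →
              ∃ z ∈ l, z ∈ S₁ := by
            intro a ha l hl hg
            obtain ⟨z, hz, hzS⟩ := hcut a ha l hl hg
            refine ⟨z, hz, Finset.mem_filter.2 ⟨hzS, ?_, (pc_mem hl z hz).2⟩⟩
            exact (hT a ha).le.trans (pc_mem hl z hz).1
          -- the contraction
          have key : ∀ x ∈ T, ∃ C : Finset L, (C : Set L) = Con x (T : Set L) ∧ 2 ≤ C.card ∧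
              C.card ≤ (S₁.filter (fun z => x ≤ z)).card := by
            intro x hx
            obtain ⟨g1, g2, g3⟩ := hGCON L ρ hρ b T x hT hx
            have hCs : (((T.erase x).image (fun a => x ⊔ a) : Finset L) : Set L)
                = Con x (T : Set L) := by
              ext w
              simp only [Finset.coe_image, Set.mem_image, Finset.mem_coe, Finset.mem_erase]
              constructor
              · rintro ⟨a, ⟨h1, h2⟩, rfl⟩
                exact ⟨a, h2, h1, rfl⟩
              · rintro ⟨a, h1, h2, rfl⟩
                exact ⟨a, ⟨h2, h1⟩, rfl⟩
            set C : Finset L := (T.erase x).image (fun a => x ⊔ a) with hC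
            have hCle : C.card ≤ T.card - 1 := by
              rw [← Finset.card_erase_of_mem hx]; exact Finset.card_image_le
            have hCne : C.Nonempty := by
              rw [hC]
              refine Finset.Nonempty.image ?_ _
              rw [← Finset.card_pos, Finset.card_erase_of_mem hx]
              omega
            have hC2 : 2 ≤ C.card := by
              by_contra hlt
              have hC1 : C.card = 1 := by
                have := Finset.card_pos.2 hCne
                omega
              obtain ⟨w, hw⟩ := Finset.card_eq_one.1 hC1
              have hwC : w ∈ Con x (T : Set L) := by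
                rw [← hCs, hw]; simp
              have hxw : x ⋖ w := g1 w hwC
              have htp : tp b (T : Set L) = w := by
                rw [← g2, ← hCs, hw]
                simp only [tp, Finset.coe_singleton, sSup_singleton]
                exact sup_eq_right.2 hxw.le
              obtain ⟨z, hz, hzS⟩ := hcut x hx [x] ⟨rfl, by simp, by
                intro z hz
                simp only [List.getLast?_singleton, Option.some.injEq] at hz
                subst hz
                rw [htp]; exact hxw⟩ (by
                intro z hz
                simp only [List.mem_singleton] at hz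
                subst hz
                exact gen_atom hT hx)
              simp only [List.mem_singleton] at hz
              rw [hz] at hzS
              exact hq x hx hzS
            refine ⟨C, hCs, hC2, ?_⟩
            refine ih C.card (by omega) x C (S₁.filter (fun z => x ≤ z)) rfl
              (by rw [hCs]; exact g1) hC2 ?_
            intro w hw l hl hg
            rw [hCs] at hl
            have hg' : ∀ z ∈ l, Gen x (Con x (T : Set L)) z := by
              intro z hz
              have := hg z hz
              rwa [hCs] at this
            have hw' : w ∈ Con x (T : Set L) := by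
              rw [← hCs]; exact hw
            obtain ⟨hp, hgen⟩ := hLIFT L ρ hρ b T x w l hT hx hw' hl hg'
            obtain ⟨z, hz, hzS⟩ := hcut₁ x hx (x :: l) hp hgen
            have hxz := (pc_mem hp z hz).1
            rcases List.mem_cons.1 hz with h | h
            · exfalso
              rw [h] at hzS
              exact hq x hx (Finset.mem_filter.1 hzS).1
            · exact ⟨z, h, Finset.mem_filter.2 ⟨hzS, hxz⟩⟩
          have hTne : T.Nonempty := by
            rw [← Finset.card_pos]; omega
          have hfin : T.card ≤ S₁.card := by
            refine hCNT L L T S₁ (fun x z => x ≤ z) ?_ ?_ ?_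
            · obtain ⟨x, hx⟩ := hTne
              obtain ⟨C, -, hC2, hC3⟩ := key x hx
              have : 0 < (S₁.filter (fun z => x ≤ z)).card := by omega
              obtain ⟨z, hz⟩ := Finset.card_pos.1 this
              exact ⟨z, (Finset.mem_filter.1 hz).1⟩
            · intro z hz
              by_contra hall
              push Not at hall
              have hz' := (Finset.mem_filter.1 hz).2
              have : tp b (T : Set L) ≤ z := sup_le hz'.1 (sSup_le (fun a ha => hall a ha))
              exact absurd hz'.2 (not_lt_of_ge this)
            · intro x hx z hz hxz
              obtain ⟨C, hCs, hC2, hC3⟩ := key x hx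
              refine ⟨le_trans ?_ hC3, by omega⟩
              refine Finset.card_le_card_of_injOn (fun a => x ⊔ a) ?_ ?_
              · intro a ha
                have ha' := Finset.mem_filter.1 (Finset.mem_coe.1 ha)
                rw [hCs]
                refine ⟨a, ha'.1, ?_, rfl⟩
                rintro rfl
                exact hxz ha'.2
              · intro a ha a' ha' heq
                have h1 := Finset.mem_filter.1 (Finset.mem_coe.1 ha)
                have h1' := Finset.mem_filter.1 (Finset.mem_coe.1 ha')
                by_contra hne
                simp only at heq
                have hc1 : a ⋖ a ⊔ x := hρ.sm b x a (hT x hx) (hT a h1.1).le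
                  (fun hle => hxz (hle.trans h1.2))
                have hlt : a < a ⊔ a' := by
                  refine lt_of_le_of_ne le_sup_left ?_
                  intro hh
                  have : a' ≤ a := by rw [hh]; exact le_sup_right
                  exact not_le_of_ne (hT a' h1'.1) (hT a h1.1) (Ne.symm hne) this
                have hle : a ⊔ a' ≤ a ⊔ x := by
                  refine sup_le le_sup_left ?_
                  calc a' ≤ x ⊔ a' := le_sup_right
                    _ = x ⊔ a := heq.symm
                    _ = a ⊔ x := sup_comm _ _
                have heq2 : a ⊔ a' = a ⊔ x := by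
                  rcases eq_or_lt_of_le hle with h | h
                  · exact h
                  · exact absurd h (hc1.2 hlt)
                exact hxz ((le_sup_right : x ≤ a ⊔ x).trans
                  (heq2.symm.le.trans (sup_le h1.2 h1'.2)))
          exact hfin.trans (Finset.card_le_card (Finset.filter_subset _ _))
  intro b T S hT h2 hcut
  exact main T.card b T S rfl hT h2 hcut

end Pool.Agent.L7h76.GL
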